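import Mathlib

/-! Two elementary inequalities with binomials. -/

set_option autoImplicit false

namespace Pool.Agent.L5helper7.D3

open Finset

lemma sum_choose_mid (n : ℕ) (hn : 2 ≤ n) : 2 + ∑ j ∈ Icc 1 (n - 1), n.choose j = 2 ^ n := by
  have h1 : Icc 1 (n - 1) = Ico 1 n := by
    ext j; simp only [mem_Icc, mem_Ico]; omega
  have h2 : ∑ k ∈ Ico 0 n, n.choose k = n.choose 0 + ∑ k ∈ Ico 1 n, n.choose k :=
    sum_eq_sum_Ico_succ_bot (by omega) _
  rw [h1, ← Nat.sum_range_choose n, sum_range_succ, range_eq_Ico, h2, Nat.choose_zero_right, Nat.choose_self]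
  omega

lemma sum_reflect (n : ℕ) (g : ℕ → ℕ) : ∑ j ∈ Icc 1 (n - 1), g (n - j) = ∑ j ∈ Icc 1 (n - 1), g j := by
  apply sum_nbij' (fun j => n - j) (fun j => n - j)
  · intro j hj; simp only [mem_Icc] at hj ⊢; omega
  · intro j hj; simp only [mem_Icc] at hj ⊢; omega
  · intro j hj; simp only [mem_Icc] at hj; show n - (n - j) = j; omega
  · intro j hj; simp only [mem_Icc] at hj; show n - (n - j) = j; omega
  · intro j _; rfl

lemma two_sum (n : ℕ) (f : ℕ → ℕ) : 2 * ∑ j ∈ Icc 1 (n - 1), n.choose j * f j =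
    ∑ j ∈ Icc 1 (n - 1), n.choose j * (f j + f (n - j)) := by
  have h1 : ∑ j ∈ Icc 1 (n - 1), n.choose j * f (n - j) = ∑ j ∈ Icc 1 (n - 1), n.choose j * f j := by
    rw [← sum_reflect n (fun j => n.choose j * f j)]
    apply sum_congr rfl
    intro j hj
    simp only [mem_Icc] at hj
    rw [Nat.choose_symm (by omega)]
  simp_rw [mul_add]
  rw [sum_add_distrib, h1, two_mul]

theorem sum_two (n : ℕ) (hn : 2 ≤ n) (f : ℕ → ℕ) (hf : ∀ j, 1 ≤ j → j ≤ n - 1 → f j + f (n - j) ≤ 2) :
    2 + ∑ j ∈ Icc 1 (n - 1), n.choose j * f j ≤ 2 ^ n := by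
  have h1 := two_sum n f
  have h2 := sum_choose_mid n hn
  have h3 : ∑ j ∈ Icc 1 (n - 1), n.choose j * (f j + f (n - j)) ≤ ∑ j ∈ Icc 1 (n - 1), n.choose j * 2 := by
    apply sum_le_sum
    intro j hj
    simp only [mem_Icc] at hj
    exact Nat.mul_le_mul_left _ (hf j hj.1 hj.2)
  rw [← sum_mul] at h3
  omega

lemma sum_low (n K : ℕ) (hK : 3 * K + 2 ≤ n) : ∑ k ∈ range (K + 1), n.choose k ≤ n.choose (K + 1) := by
  induction K with
  | zero => simp; omega
  | succ K ih =>
    rw [sum_range_succ]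
    have h1 := ih (by omega)
    have h2 : n.choose (K + 1 + 1) * (K + 1 + 1) = n.choose (K + 1) * (n - (K + 1)) := Nat.choose_succ_right_eq n (K + 1)
    have h3 : 2 * (K + 1 + 1) ≤ n - (K + 1) := by omega
    have h4 : n.choose (K + 1) * (2 * (K + 1 + 1)) ≤ n.choose (K + 1) * (n - (K + 1)) := Nat.mul_le_mul_left _ h3
    have h5 : (2 * n.choose (K + 1)) * (K + 1 + 1) ≤ n.choose (K + 1 + 1) * (K + 1 + 1) := by
      rw [h2]; calc _ = n.choose (K + 1) * (2 * (K + 1 + 1)) := by ring
        _ ≤ _ := h4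
    have h6 : 2 * n.choose (K + 1) ≤ n.choose (K + 1 + 1) := Nat.le_of_mul_le_mul_right h5 (by omega)
    omega

lemma choose_mono' (n a i : ℕ) (h : a ≤ i) (hi : 2 * i < n) : n.choose a ≤ n.choose i := by
  induction i, h using Nat.le_induction with
  | base => exact le_rfl
  | succ i hai ih =>
    exact (ih (by omega)).trans (Nat.choose_le_succ_of_lt_half_left (by omega))

theorem sum_three (n : ℕ) (f : ℕ → ℕ) (K i : ℕ) (hK : 3 * K + 2 ≤ n) (hKi : K < i) (hi : 2 * i < n)
    (hf3 : ∀ j, 1 ≤ j → j ≤ n - 1 → f j + f (n - j) ≤ 3)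
    (hf2 : ∀ j, K < j → j < n - K → f j + f (n - j) ≤ 2) (hfi : f i + f (n - i) ≤ 1) :
    2 + ∑ j ∈ Icc 1 (n - 1), n.choose j * f j ≤ 2 ^ n := by
  have h1 := two_sum n f
  have h2 := sum_choose_mid n (by omega)
  have hlow : ∑ k ∈ range (K + 1), n.choose k ≤ n.choose i := (sum_low n K hK).trans (choose_mono' n (K + 1) i hKi hi)
  have hmem : i ∈ Icc 1 (n - 1) := by simp only [mem_Icc]; omega
  have hmem' : n - i ∈ Icc 1 (n - 1) := by simp only [mem_Icc]; omega
  have e1 : ∑ j ∈ Icc 1 (n - 1), (if j = i then n.choose i else 0) = n.choose i := by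
    rw [sum_ite_eq' (Icc 1 (n - 1)) i (fun _ => n.choose i), if_pos hmem]
  have e2 : ∑ j ∈ Icc 1 (n - 1), (if j = n - i then n.choose i else 0) = n.choose i := by
    rw [sum_ite_eq' (Icc 1 (n - 1)) (n - i) (fun _ => n.choose i), if_pos hmem']
  have e3 : ∑ j ∈ Icc 1 (n - 1), (if j ≤ K then n.choose j else 0) ≤ ∑ k ∈ range (K + 1), n.choose k := by
    rw [← sum_filter]
    apply sum_le_sum_of_subset
    intro j hj
    simp only [mem_filter, mem_Icc] at hj
    simp only [mem_range]; omega
  have e4 : ∑ j ∈ Icc 1 (n - 1), (if n - K ≤ j then n.choose j else 0) ≤ ∑ k ∈ range (K + 1), n.choose k := by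
    rw [← sum_reflect n (fun j => if n - K ≤ j then n.choose j else 0)]
    refine le_trans (sum_le_sum fun j hj => ?_) e3
    simp only [mem_Icc] at hj
    rw [Nat.choose_symm (by omega)]
    by_cases h : j ≤ K
    · rw [if_pos h]; split_ifs <;> omega
    · rw [if_neg h, if_neg (by omega)]
  have h3 : ∑ j ∈ Icc 1 (n - 1), (n.choose j * (f j + f (n - j)) + (if j = i then n.choose i else 0) +
      (if j = n - i then n.choose i else 0)) ≤ ∑ j ∈ Icc 1 (n - 1), (n.choose j * 2 +
        (if j ≤ K then n.choose j else 0) + (if n - K ≤ j then n.choose j else 0)) := by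
    apply sum_le_sum
    intro j hj
    simp only [mem_Icc] at hj
    by_cases c1 : j ≤ K
    · rw [if_neg (by omega : ¬ j = i), if_neg (by omega : ¬ j = n - i), if_pos c1, if_neg (by omega : ¬ n - K ≤ j)]
      have := Nat.mul_le_mul_left (n.choose j) (hf3 j hj.1 hj.2)
      omega
    · by_cases c2 : n - K ≤ j
      · rw [if_neg (by omega : ¬ j = i), if_neg (by omega : ¬ j = n - i), if_neg c1, if_pos c2]
        have := Nat.mul_le_mul_left (n.choose j) (hf3 j hj.1 hj.2)
        omega
      · rw [if_neg c1, if_neg c2]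
        by_cases c3 : j = i
        · subst c3
          rw [if_pos rfl, if_neg (by omega : ¬ j = n - j)]
          have := Nat.mul_le_mul_left (n.choose j) hfi
          omega
        · by_cases c4 : j = n - i
          · rw [if_neg c3, if_pos c4]
            have h5 : n - j = i := by omega
            have h6 : n.choose j = n.choose i := by rw [c4, Nat.choose_symm (by omega)]
            rw [h5, h6]
            have h7 : f j + f i ≤ 1 := by rw [c4]; omega
            have := Nat.mul_le_mul_left (n.choose i) h7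
            omega
          · rw [if_neg c3, if_neg c4]
            have := Nat.mul_le_mul_left (n.choose j) (hf2 j (by omega) (by omega))
            omega
  rw [sum_add_distrib, sum_add_distrib, sum_add_distrib, sum_add_distrib, e1, e2, ← sum_mul] at h3
  omega

end Pool.Agent.L5helper7.D3
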